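import Mathlib
import Pool.Agent.H964.QC.Stm2

/-! # QC-TH: the supersolution in the ages -/

set_option autoImplicit false

open MeasureTheory ProbabilityTheory Filter Finset

namespace Pool.Agent.H344.QC

open Pool.Agent.H964.QC

variable {V : Type} [Fintype V] [DecidableEq V] {C0 : ℝ} {N0 : ℕ}

/-! ## Kernel bounds -/

theorem K_le_one (W : Wlk V C0 N0) (n : ℕ) (x y : V) : W.K n x y ≤ 1 := by
  rw [← W.K_sum n x]
  exact Finset.single_le_sum (fun z _ => W.K_nonneg n x z) (Finset.mem_univ y)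

theorem sum_sq (W : Wlk V C0 N0) {n : ℕ} (hn : n ≤ N0) (x : V) :
    ∑ z, W.K n x z ^ 2 = rr n := by
  rw [← W.K_ret n x hn, two_mul, W.K_add]
  refine Finset.sum_congr rfl fun z _ => ?_
  rw [W.K_symm n z x, sq]

theorem sum_prod (W : Wlk V C0 N0) {k l : ℕ} (hl : 1 ≤ l) (hl' : l ≤ N0) (y v : V) :
    ∑ z, W.K k y z * W.K l v z ≤ C0 / l := by
  calc ∑ z, W.K k y z * W.K l v z ≤ ∑ z, W.K k y z * (C0 / l) := by
        refine Finset.sum_le_sum fun z _ => ?_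
        exact mul_le_mul_of_nonneg_left (W.K_sup l v z hl hl') (W.K_nonneg k y z)
    _ = C0 / l := by rw [← Finset.sum_mul, W.K_sum, one_mul]

theorem sum_sq_le (W : Wlk V C0 N0) {l : ℕ} (hl : 1 ≤ l) (hl' : l ≤ N0) (v : V) :
    ∑ z, W.K l v z ^ 2 ≤ C0 / l := by
  refine le_trans (le_of_eq ?_) (sum_prod W (k := l) hl hl' v v)
  exact Finset.sum_congr rfl fun z _ => by rw [sq]

theorem sum_one_two (W : Wlk V C0 N0) {k l : ℕ} (hk : 1 ≤ k) (hk' : k ≤ N0) (hl : 1 ≤ l)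
    (hl' : l ≤ N0) (y v : V) :
    ∑ z, W.K k y z * W.K l v z ^ 2 ≤ C0 / k * (C0 / l) := by
  have h0 : 0 ≤ C0 / k := div_nonneg (le_trans zero_le_one W.one_le) (Nat.cast_nonneg k)
  calc ∑ z, W.K k y z * W.K l v z ^ 2 ≤ ∑ z, C0 / k * W.K l v z ^ 2 := by
        refine Finset.sum_le_sum fun z _ => ?_
        exact mul_le_mul_of_nonneg_right (W.K_sup k y z hk hk') (sq_nonneg _)
    _ = C0 / k * ∑ z, W.K l v z ^ 2 := by rw [Finset.mul_sum]
    _ ≤ C0 / k * (C0 / l) := mul_le_mul_of_nonneg_left (sum_sq_le W hl hl' v) h0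

theorem sum_two_one (W : Wlk V C0 N0) {k l : ℕ} (hk : 1 ≤ k) (hk' : k ≤ N0) (hl : 1 ≤ l)
    (hl' : l ≤ N0) (y v : V) :
    ∑ z, W.K k y z ^ 2 * W.K l v z ≤ C0 / k * (C0 / l) := by
  have := sum_one_two W hl hl' hk hk' v y
  rw [mul_comm (C0 / (l : ℝ))] at this
  refine le_trans (le_of_eq ?_) this
  exact Finset.sum_congr rfl fun z _ => by rw [mul_comm]

theorem sum_two_two (W : Wlk V C0 N0) {k l : ℕ} (hk : 1 ≤ k) (hk' : k ≤ N0) (hl : 1 ≤ l)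
    (hl' : l ≤ N0) (y v : V) :
    ∑ z, W.K k y z ^ 2 * W.K l v z ^ 2 ≤ C0 / k * (C0 / l) := by
  refine le_trans (Finset.sum_le_sum fun z _ => ?_) (sum_two_one W hk hk' hl hl' y v)
  refine mul_le_mul_of_nonneg_left ?_ (sq_nonneg _)
  have h1 := K_le_one W l v z
  have h0 := W.K_nonneg l v z
  nlinarith

omit [DecidableEq V] in
theorem sum_mul_le {c g : V → ℝ} {M B : ℝ} (hc : ∀ z, 0 ≤ c z) (hg : ∀ z, g z ≤ M) (hM : 0 ≤ M)
    (hB : ∑ z, c z ≤ B) : ∑ z, c z * g z ≤ B * M := by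
  calc ∑ z, c z * g z ≤ ∑ z, c z * M :=
        Finset.sum_le_sum fun z _ => mul_le_mul_of_nonneg_left (hg z) (hc z)
    _ = (∑ z, c z) * M := by rw [Finset.sum_mul]
    _ ≤ B * M := mul_le_mul_of_nonneg_right hB hM

omit [DecidableEq V] in
theorem sum_mul_le2 {c d : V → ℝ} {g : V → V → ℝ} {M B D : ℝ} (hc : ∀ z, 0 ≤ c z)
    (hd : ∀ z, 0 ≤ d z) (hg : ∀ z z', g z z' ≤ M) (hM : 0 ≤ M) (hD0 : 0 ≤ D)
    (hB : ∑ z, c z ≤ B) (hD : ∑ z, d z ≤ D) : ∑ z, ∑ z', c z * d z' * g z z' ≤ B * D * M := by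
  calc ∑ z, ∑ z', c z * d z' * g z z' ≤ ∑ z, c z * (D * M) := by
        refine Finset.sum_le_sum fun z _ => ?_
        have h1 : ∑ z', d z' * g z z' ≤ D * M := sum_mul_le hd (hg z) hM hD
        calc ∑ z', c z * d z' * g z z' = c z * ∑ z', d z' * g z z' := by
              rw [Finset.mul_sum]
              exact Finset.sum_congr rfl fun z' _ => by rw [mul_assoc]
          _ ≤ c z * (D * M) := mul_le_mul_of_nonneg_left h1 (hc z)
    _ = (∑ z, c z) * (D * M) := by rw [Finset.sum_mul]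
    _ ≤ B * (D * M) := mul_le_mul_of_nonneg_right hB (mul_nonneg hD0 hM)
    _ = B * D * M := by ring

/-! ## The terms of the one-step inequality -/

/-- the sum of the terms of `S_T1` with ages `k`, `l` and `i` remaining steps -/
noncomputable def EV (W : Wlk V C0 N0) {Ω : Type} [MeasurableSpace Ω] (P : Measure Ω)
    (η : ℕ → V → Ω → ℝ) (s2 κ : ℝ) (k l i : ℕ) (y v : V) : ℝ :=
    s2 * ∑ z, W.K k y z ^ 2 * G4 W P η i 0 l z v
    + s2 * ∑ z, W.K l v z ^ 2 * G4 W P η i 0 k z y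
    + 2 * s2 * ∑ z, W.K k y z * W.K l v z *
        (G4 W P η i 0 k z y + G4 W P η i 0 l z v)
    + κ * s2 * ∑ z, W.K k y z * W.K l v z ^ 2 *
        (G4 W P η i 0 0 z z + G4 W P η i 0 k z y)
    + κ * s2 * ∑ z, W.K k y z ^ 2 * W.K l v z *
        (G4 W P η i 0 0 z z + G4 W P η i 0 l z v)
    + κ * s2 * ∑ z, W.K k y z ^ 2 * W.K l v z ^ 2 * G4 W P η i 0 0 z z
    + s2 ^ 2 * ∑ z, ∑ z', W.K k y z ^ 2 * W.K l v z' ^ 2 * G4 W P η i 0 0 z z'
    + 2 * s2 ^ 2 * ∑ z, ∑ z', W.K k y z * W.K l v z *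
        (W.K k y z' * W.K l v z') * G4 W P η i 0 0 z z'

theorem unroll (hT1 : S_T1) (W : Wlk V C0 N0) {Ω : Type} [MeasurableSpace Ω] (P : Measure Ω)
    [IsProbabilityMeasure P] {s2 κ : ℝ} {η : ℕ → V → Ω → ℝ} (hs : 0 ≤ s2) (hκ : 0 ≤ κ)
    (hN : Noise P s2 κ η) : ∀ (j a b : ℕ) (y v : V),
    G4 W P η j a b y v ≤ 1 + ∑ k ∈ Finset.range j,
      EV W P η s2 κ (a + (k + 1)) (b + (k + 1)) (j - (k + 1)) y v := by
  intro j
  induction j with
  | zero =>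
    intro a b y v
    rw [(hT1 V C0 N0 W Ω P s2 κ η hs hκ hN 0 a b y v).2.1]
    simp
  | succ j ih =>
    intro a b y v
    have h1 := (hT1 V C0 N0 W Ω P s2 κ η hs hκ hN j a b y v).2.2
    have h2 := ih (a + 1) (b + 1) y v
    rw [Finset.sum_range_succ']
    have h3 : ∑ k ∈ Finset.range j, EV W P η s2 κ (a + (k + 1 + 1)) (b + (k + 1 + 1))
        (j + 1 - (k + 1 + 1)) y v = ∑ k ∈ Finset.range j,
        EV W P η s2 κ (a + 1 + (k + 1)) (b + 1 + (k + 1)) (j - (k + 1)) y v := by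
      refine Finset.sum_congr rfl fun k _ => ?_
      have e1 : a + (k + 1 + 1) = a + 1 + (k + 1) := by omega
      have e2 : b + (k + 1 + 1) = b + 1 + (k + 1) := by omega
      have e3 : j + 1 - (k + 1 + 1) = j - (k + 1) := by omega
      rw [e1, e2, e3]
    rw [h3]
    have h4 : EV W P η s2 κ (a + (0 + 1)) (b + (0 + 1)) (j + 1 - (0 + 1)) y v =
        EV W P η s2 κ (a + 1) (b + 1) j y v := by
      simp only [zero_add, Nat.add_sub_cancel]
    rw [h4]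
    have h5 : G4 W P η (j + 1) a b y v ≤ G4 W P η j (a + 1) (b + 1) y v +
        EV W P η s2 κ (a + 1) (b + 1) j y v := by
      unfold EV
      linarith
    linarith

/-- bound of the terms -/
theorem EV_le (W : Wlk V C0 N0) {Ω : Type} [MeasurableSpace Ω] (P : Measure Ω)
    {s2 κ : ℝ} {η : ℕ → V → Ω → ℝ} (hs : 0 ≤ s2) (hs1 : s2 ≤ 1) (hκ : 0 ≤ κ) {A : ℝ} (hA : 0 ≤ A)
    {h : ℕ → ℝ} (hh0 : ∀ n, 0 ≤ h n) (hanti : Antitone h) {k l i : ℕ} (hk : 1 ≤ k) (hkl : k ≤ l)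
    (hl : l ≤ N0) (hGk : ∀ y v, G4 W P η i 0 k y v ≤ A * h k)
    (hGl : ∀ y v, G4 W P η i 0 l y v ≤ A * h l) (hG0 : ∀ y v, G4 W P η i 0 0 y v ≤ A * h 0)
    (y v : V) :
    EV W P η s2 κ k l i y v ≤ A * (s2 * (rr k * h l) + 5 * C0 * s2 * (h k / l) +
      8 * (κ + 1) * C0 ^ 2 * s2 * (h 0 * (1 / ((k : ℝ) * l)))) := by
  have hl1 : 1 ≤ l := hk.trans hkl
  have hkN : k ≤ N0 := hkl.trans hl
  have hC0 : 0 ≤ C0 := le_trans zero_le_one W.one_le
  have hkp : (0 : ℝ) < k := by exact_mod_cast hk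
  have hlp : (0 : ℝ) < l := by exact_mod_cast hl1
  have hkl' : (k : ℝ) ≤ l := by exact_mod_cast hkl
  have h0k : h k ≤ h 0 := hanti (Nat.zero_le k)
  have h0l : h l ≤ h 0 := hanti (Nat.zero_le l)
  have hlk : h l ≤ h k := hanti hkl
  have hA0 : 0 ≤ A * h 0 := mul_nonneg hA (hh0 0)
  have hAk : 0 ≤ A * h k := mul_nonneg hA (hh0 k)
  have hAl : 0 ≤ A * h l := mul_nonneg hA (hh0 l)
  have hAk0 : A * h k ≤ A * h 0 := mul_le_mul_of_nonneg_left h0k hA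
  have hAl0 : A * h l ≤ A * h 0 := mul_le_mul_of_nonneg_left h0l hA
  have hAlk : A * h l ≤ A * h k := mul_le_mul_of_nonneg_left hlk hA
  have hck : 0 ≤ C0 / (k : ℝ) := div_nonneg hC0 hkp.le
  have hcl : 0 ≤ C0 / (l : ℝ) := div_nonneg hC0 hlp.le
  have hKK : ∀ z, 0 ≤ W.K k y z * W.K l v z := fun z =>
    mul_nonneg (W.K_nonneg _ _ _) (W.K_nonneg _ _ _)
  -- the eight terms
  have t1 : ∑ z, W.K k y z ^ 2 * G4 W P η i 0 l z v ≤ rr k * (A * h l) :=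
    sum_mul_le (fun z => sq_nonneg _) (fun z => hGl z v) hAl (sum_sq W hkN y).le
  have t2 : ∑ z, W.K l v z ^ 2 * G4 W P η i 0 k z y ≤ C0 / l * (A * h k) :=
    sum_mul_le (fun z => sq_nonneg _) (fun z => hGk z y) hAk (sum_sq_le W hl1 hl v)
  have t3 : ∑ z, W.K k y z * W.K l v z * (G4 W P η i 0 k z y + G4 W P η i 0 l z v) ≤
      C0 / l * (A * h k + A * h k) :=
    sum_mul_le hKK (fun z => add_le_add (hGk z y) ((hGl z v).trans hAlk)) (by linarith)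
      (sum_prod W hl1 hl y v)
  have t4 : ∑ z, W.K k y z * W.K l v z ^ 2 * (G4 W P η i 0 0 z z + G4 W P η i 0 k z y) ≤
      C0 / k * (C0 / l) * (A * h 0 + A * h 0) :=
    sum_mul_le (fun z => mul_nonneg (W.K_nonneg _ _ _) (sq_nonneg _))
      (fun z => add_le_add (hG0 z z) ((hGk z y).trans hAk0)) (by linarith)
      (sum_one_two W hk hkN hl1 hl y v)
  have t5 : ∑ z, W.K k y z ^ 2 * W.K l v z * (G4 W P η i 0 0 z z + G4 W P η i 0 l z v) ≤
      C0 / k * (C0 / l) * (A * h 0 + A * h 0) :=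
    sum_mul_le (fun z => mul_nonneg (sq_nonneg _) (W.K_nonneg _ _ _))
      (fun z => add_le_add (hG0 z z) ((hGl z v).trans hAl0)) (by linarith)
      (sum_two_one W hk hkN hl1 hl y v)
  have t6 : ∑ z, W.K k y z ^ 2 * W.K l v z ^ 2 * G4 W P η i 0 0 z z ≤
      C0 / k * (C0 / l) * (A * h 0) :=
    sum_mul_le (fun z => mul_nonneg (sq_nonneg _) (sq_nonneg _)) (fun z => hG0 z z) hA0
      (sum_two_two W hk hkN hl1 hl y v)
  have t7 : ∑ z, ∑ z', W.K k y z ^ 2 * W.K l v z' ^ 2 * G4 W P η i 0 0 z z' ≤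
      C0 / k * (C0 / l) * (A * h 0) :=
    sum_mul_le2 (fun z => sq_nonneg _) (fun z => sq_nonneg _) hG0 hA0 hcl
      (sum_sq_le W hk hkN y) (sum_sq_le W hl1 hl v)
  have t8 : ∑ z, ∑ z', W.K k y z * W.K l v z * (W.K k y z' * W.K l v z') *
      G4 W P η i 0 0 z z' ≤ C0 / l * (C0 / l) * (A * h 0) :=
    sum_mul_le2 hKK hKK hG0 hA0 hcl (sum_prod W hl1 hl y v) (sum_prod W hl1 hl y v)
  have hll : C0 / l * (C0 / l) ≤ C0 / k * (C0 / (l : ℝ)) :=
    mul_le_mul_of_nonneg_right (div_le_div_of_nonneg_left hC0 hkp hkl') hcl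
  have t8' : ∑ z, ∑ z', W.K k y z * W.K l v z * (W.K k y z' * W.K l v z') *
      G4 W P η i 0 0 z z' ≤ C0 / k * (C0 / l) * (A * h 0) :=
    t8.trans (mul_le_mul_of_nonneg_right hll hA0)
  obtain ⟨D, hD⟩ : ∃ D : ℝ, D = C0 / k * (C0 / l) * (A * h 0) := ⟨_, rfl⟩
  have hD0 : 0 ≤ D := by rw [hD]; positivity
  have hD' : D = C0 ^ 2 * (A * (h 0 * (1 / ((k : ℝ) * l)))) := by
    rw [hD]
    field_simp
  have hs2 : s2 ^ 2 ≤ s2 := by nlinarith
  have hs20 : 0 ≤ s2 ^ 2 := sq_nonneg _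
  have hκs : 0 ≤ κ * s2 := mul_nonneg hκ hs
  have u1 := mul_le_mul_of_nonneg_left t1 hs
  have u2 := mul_le_mul_of_nonneg_left t2 hs
  have u3 := mul_le_mul_of_nonneg_left t3 (mul_nonneg zero_le_two hs)
  have u4 : κ * s2 * ∑ z, W.K k y z * W.K l v z ^ 2 *
      (G4 W P η i 0 0 z z + G4 W P η i 0 k z y) ≤ κ * s2 * (2 * D) := by
    refine mul_le_mul_of_nonneg_left (t4.trans (le_of_eq ?_)) hκs
    rw [hD]; ring
  have u5 : κ * s2 * ∑ z, W.K k y z ^ 2 * W.K l v z *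
      (G4 W P η i 0 0 z z + G4 W P η i 0 l z v) ≤ κ * s2 * (2 * D) := by
    refine mul_le_mul_of_nonneg_left (t5.trans (le_of_eq ?_)) hκs
    rw [hD]; ring
  have u6 : κ * s2 * ∑ z, W.K k y z ^ 2 * W.K l v z ^ 2 * G4 W P η i 0 0 z z ≤ κ * s2 * D := by
    refine mul_le_mul_of_nonneg_left (t6.trans (le_of_eq ?_)) hκs
    rw [hD]
  have u7 : s2 ^ 2 * ∑ z, ∑ z', W.K k y z ^ 2 * W.K l v z' ^ 2 * G4 W P η i 0 0 z z' ≤
      s2 * D := by
    refine (mul_le_mul_of_nonneg_left (t7.trans (le_of_eq ?_)) hs20).trans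
      (mul_le_mul_of_nonneg_right hs2 hD0)
    rw [hD]
  have u8 : 2 * s2 ^ 2 * ∑ z, ∑ z', W.K k y z * W.K l v z * (W.K k y z' * W.K l v z') *
      G4 W P η i 0 0 z z' ≤ 2 * s2 * D := by
    refine (mul_le_mul_of_nonneg_left (t8'.trans (le_of_eq ?_)) (by positivity)).trans
      (mul_le_mul_of_nonneg_right (by linarith) hD0)
    rw [hD]
  have key : EV W P η s2 κ k l i y v ≤ s2 * (rr k * (A * h l)) + s2 * (C0 / l * (A * h k)) +
      2 * s2 * (C0 / l * (A * h k + A * h k)) + κ * s2 * (2 * D) + κ * s2 * (2 * D) +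
      κ * s2 * D + s2 * D + 2 * s2 * D := by
    unfold EV
    linarith
  refine key.trans ?_
  have h5 : s2 * (rr k * (A * h l)) + s2 * (C0 / l * (A * h k)) +
      2 * s2 * (C0 / l * (A * h k + A * h k)) =
      A * (s2 * (rr k * h l) + 5 * C0 * s2 * (h k / l)) := by
    field_simp
    ring
  have h6 : 8 * (κ + 1) * s2 * D = A * (8 * (κ + 1) * C0 ^ 2 * s2 *
      (h 0 * (1 / ((k : ℝ) * l)))) := by
    rw [hD']; ring
  have h7 : 0 ≤ κ * s2 * D := mul_nonneg hκs hD0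
  have h8 : 0 ≤ s2 * D := mul_nonneg hs hD0
  have h9 : A * (s2 * (rr k * h l) + 5 * C0 * s2 * (h k / l) +
      8 * (κ + 1) * C0 ^ 2 * s2 * (h 0 * (1 / ((k : ℝ) * l)))) =
      A * (s2 * (rr k * h l) + 5 * C0 * s2 * (h k / l)) + 8 * (κ + 1) * s2 * D := by
    rw [h6]; ring
  rw [h9, ← h5]
  nlinarith

theorem hh_one_le (g : ℝ) (t a : ℕ) : 1 ≤ hh g t a := le_max_left _ _

theorem sum_shift_le {f : ℕ → ℝ} (hf : ∀ k, 1 ≤ k → 0 ≤ f k) {j T : ℕ} (hj : j ≤ T) :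
    ∑ k ∈ Finset.range j, f (k + 1) ≤ ∑ k ∈ Finset.Icc 1 T, f k := by
  rw [Finset.range_eq_Ico, Finset.sum_Ico_add' f 0 j 1]
  refine Finset.sum_le_sum_of_subset_of_nonneg ?_ ?_
  · intro k hk
    rw [Finset.mem_Ico] at hk
    rw [Finset.mem_Icc]
    omega
  · intro k hk _
    exact hf k (Finset.mem_Icc.1 hk).1

theorem RR_nonneg (hRR : S_RR) (n : ℕ) : 0 ≤ RR n :=
  Finset.sum_nonneg fun i _ => (hRR.1 i).le

theorem t_TH : S_TH := by
  intro hT1 hRR hHH C0 κ hC0 hκ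
  obtain ⟨Ch, hCh, hanti, hsum, hsum0⟩ := hHH (1 / 4) (by norm_num) le_rfl
  have hCh0 : 0 ≤ Ch := zero_le_one.trans hCh
  have hC00 : 0 ≤ C0 := zero_le_one.trans hC0
  obtain ⟨C', hC'⟩ : ∃ C' : ℝ, C' = (5 * C0 + 8 * (κ + 1) * C0 ^ 2) * Ch := ⟨_, rfl⟩
  have hC'0 : 0 ≤ C' := by rw [hC']; positivity
  refine ⟨2 * C' + 1, by linarith, ?_⟩
  intro V _ _ N0 W Ω _ P _ s2 E η t T hs hN ht hT hRT hE hC
  obtain ⟨Lg, hLg⟩ : ∃ Lg : ℝ, Lg = 1 + Real.log (1 + (T : ℝ) / t) := ⟨_, rfl⟩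
  rw [← hLg] at hC
  have hLg1 : 1 ≤ Lg := by
    have : 0 ≤ Real.log (1 + (T : ℝ) / t) := by
      apply Real.log_nonneg
      have : 0 ≤ (T : ℝ) / t := by positivity
      linarith
    linarith
  have hR0 : 0 ≤ RR T := RR_nonneg hRR T
  have hden : 0 < 1 - s2 * RR T := by linarith
  have hE1 : 1 ≤ E := by
    rw [hE, le_div_iff₀ hden]
    have := mul_nonneg hs.le hR0
    linarith
  have hE0 : 0 < E := by linarith
  have hELg : 1 ≤ E * Lg := one_le_mul_of_one_le_of_one_le hE1 hLg1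
  have hs1 : s2 ≤ 1 := by
    have h1 : s2 * 1 ≤ s2 * (E * Lg) := mul_le_mul_of_nonneg_left hELg hs.le
    have h2 : 1 * (s2 * (E * Lg)) ≤ (2 * C' + 1) * (s2 * (E * Lg)) :=
      mul_le_mul_of_nonneg_right (by linarith) (by positivity)
    have h3 : (2 * C' + 1) * (s2 * (E * Lg)) = (2 * C' + 1) * s2 * E * Lg := by ring
    linarith
  have hhalf : C' * s2 * E * Lg ≤ 1 / 2 := by
    have h2 : 0 ≤ s2 * (E * Lg) := by positivity
    have h3 : (2 * C' + 1) * s2 * E * Lg = 2 * (C' * s2 * E * Lg) + s2 * (E * Lg) := by ring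
    linarith
  have hEi : 1 / E = 1 - s2 * RR T := by rw [hE, one_div_one_div]
  obtain ⟨h, hh_def⟩ : ∃ h : ℕ → ℝ, h = hh (1 / 4) t := ⟨_, rfl⟩
  have hh1 : ∀ n, 1 ≤ h n := fun n => by rw [hh_def]; exact hh_one_le _ _ _
  have hh0 : ∀ n, 0 ≤ h n := fun n => zero_le_one.trans (hh1 n)
  have han : Antitone h := by rw [hh_def]; exact hanti t
  rw [← hh_def]
  have hsumh : ∀ a : ℕ, ∑ k ∈ Finset.Icc 1 T, h k / ((a : ℝ) + k) ≤ Ch * Lg * h a := by
    intro a; rw [hh_def, hLg]; exact hsum t T a ht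
  have hsum0h : ∀ a : ℕ, h 0 * ∑ k ∈ Finset.Icc 1 T, 1 / ((k : ℝ) * ((a : ℝ) + k)) ≤ Ch * h a := by
    intro a; rw [hh_def]; exact hsum0 t T a ht
  intro j
  induction j using Nat.strong_induction_on with
  | _ j ih =>
  intro a y v hja
  have h1 := unroll hT1 W P hs.le hκ hN j 0 a y v
  have h2 : ∀ k ∈ Finset.range j, EV W P η s2 κ (0 + (k + 1)) (a + (k + 1)) (j - (k + 1)) y v ≤
      2 * E * (s2 * (rr (k + 1) * h a) + 5 * C0 * s2 * (h (k + 1) / ((a : ℝ) + ((k + 1 : ℕ) : ℝ))) +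
      8 * (κ + 1) * C0 ^ 2 * s2 * (h 0 * (1 / (((k + 1 : ℕ) : ℝ) *
        ((a : ℝ) + ((k + 1 : ℕ) : ℝ)))))) := by
    intro k hk
    have hkj : k < j := Finset.mem_range.1 hk
    rw [zero_add]
    have hlt : j - (k + 1) < j := by omega
    have h3 := EV_le W P (η := η) hs.le hs1 hκ (A := 2 * E) (by positivity) hh0 han
      (k := k + 1) (l := a + (k + 1)) (i := j - (k + 1)) (by omega) (by omega) (by omega)
      (fun y v => ih _ hlt (k + 1) y v (by omega))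
      (fun y v => ih _ hlt (a + (k + 1)) y v (by omega))
      (fun y v => ih _ hlt 0 y v (by omega)) y v
    refine h3.trans ?_
    rw [Nat.cast_add a (k + 1)]
    have h4 : h (a + (k + 1)) ≤ h a := han (by omega)
    have h5 : s2 * (rr (k + 1) * h (a + (k + 1))) ≤ s2 * (rr (k + 1) * h a) :=
      mul_le_mul_of_nonneg_left (mul_le_mul_of_nonneg_left h4 (hRR.1 _).le) hs.le
    refine mul_le_mul_of_nonneg_left ?_ (by positivity)
    linarith
  have h3 := Finset.sum_le_sum h2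
  rw [← Finset.mul_sum, Finset.sum_add_distrib, Finset.sum_add_distrib, ← Finset.mul_sum,
    ← Finset.mul_sum, ← Finset.mul_sum, ← Finset.sum_mul, ← Finset.mul_sum] at h3
  have hjT : j ≤ T := by omega
  have s1 : ∑ k ∈ Finset.range j, rr (k + 1) ≤ RR T :=
    sum_shift_le (f := rr) (fun k _ => (hRR.1 k).le) hjT
  have s2' : ∑ k ∈ Finset.range j, h (k + 1) / ((a : ℝ) + ((k + 1 : ℕ) : ℝ)) ≤
      Ch * Lg * h a :=
    (sum_shift_le (f := fun k => h k / ((a : ℝ) + (k : ℝ)))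
      (fun k _ => div_nonneg (hh0 k) (by positivity)) hjT).trans (hsumh a)
  have s3 : h 0 * ∑ k ∈ Finset.range j, 1 / (((k + 1 : ℕ) : ℝ) * ((a : ℝ) + ((k + 1 : ℕ) : ℝ))) ≤
      Ch * h a :=
    (mul_le_mul_of_nonneg_left (sum_shift_le (f := fun k => 1 / ((k : ℝ) * ((a : ℝ) + (k : ℝ))))
      (fun k _ => by positivity) hjT) (hh0 0)).trans (hsum0h a)
  have s3' : Ch * h a ≤ Ch * Lg * h a := by
    have : Ch * 1 ≤ Ch * Lg := mul_le_mul_of_nonneg_left hLg1 hCh0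
    have := mul_le_mul_of_nonneg_right this (hh0 a)
    linarith
  have e1 : s2 * ((∑ k ∈ Finset.range j, rr (k + 1)) * h a) ≤ s2 * (RR T * h a) :=
    mul_le_mul_of_nonneg_left (mul_le_mul_of_nonneg_right s1 (hh0 a)) hs.le
  have e2 : 5 * C0 * s2 * ∑ k ∈ Finset.range j, h (k + 1) / ((a : ℝ) + ((k + 1 : ℕ) : ℝ)) ≤
      5 * C0 * s2 * (Ch * Lg * h a) := mul_le_mul_of_nonneg_left s2' (by positivity)
  have e3 : 8 * (κ + 1) * C0 ^ 2 * s2 * (h 0 * ∑ k ∈ Finset.range j,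
      1 / (((k + 1 : ℕ) : ℝ) * ((a : ℝ) + ((k + 1 : ℕ) : ℝ)))) ≤
      8 * (κ + 1) * C0 ^ 2 * s2 * (Ch * Lg * h a) :=
    mul_le_mul_of_nonneg_left (s3.trans s3') (by positivity)
  have e4 : 5 * C0 * s2 * (Ch * Lg * h a) + 8 * (κ + 1) * C0 ^ 2 * s2 * (Ch * Lg * h a) =
      C' * s2 * Lg * h a := by rw [hC']; ring
  have e5 : 2 * E * (s2 * ((∑ k ∈ Finset.range j, rr (k + 1)) * h a) +
      5 * C0 * s2 * (∑ k ∈ Finset.range j, h (k + 1) / ((a : ℝ) + ((k + 1 : ℕ) : ℝ))) +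
      8 * (κ + 1) * C0 ^ 2 * s2 * (h 0 * ∑ k ∈ Finset.range j,
      1 / (((k + 1 : ℕ) : ℝ) * ((a : ℝ) + ((k + 1 : ℕ) : ℝ))))) ≤
      2 * E * (s2 * (RR T * h a) + C' * s2 * Lg * h a) :=
    mul_le_mul_of_nonneg_left (by linarith) (by positivity)
  have e6 : 2 * E * (s2 * (RR T * h a) + C' * s2 * Lg * h a) =
      2 * E * h a - 2 * h a * (1 - C' * s2 * E * Lg) := by
    have : s2 * RR T = 1 - 1 / E := by rw [hEi]; ring
    have h8 : E * (1 / E) = 1 := mul_one_div_cancel hE0.ne'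
    calc 2 * E * (s2 * (RR T * h a) + C' * s2 * Lg * h a)
        = 2 * h a * (E * (s2 * RR T) + C' * s2 * E * Lg) := by ring
      _ = 2 * h a * (E - E * (1 / E) + C' * s2 * E * Lg) := by rw [this]; ring
      _ = _ := by rw [h8]; ring
  have e7 : 1 ≤ 2 * h a * (1 - C' * s2 * E * Lg) := by
    have := hh1 a
    nlinarith
  linarith

end Pool.Agent.H344.QC
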