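import Mathlib
import Pool.Agent.H964.QC.Stm2
import Pool.Agent.H344.QC.TH

/-! # QC-PH: the mixed fourth order correlation -/

set_option autoImplicit false

open MeasureTheory ProbabilityTheory Filter Finset

namespace Pool.Agent.H344.QC

open Pool.Agent.H964.QC

variable {V : Type} [Fintype V] [DecidableEq V] {C0 : ℝ} {N0 : ℕ}

/-- the sum of the terms of `S_T3` with age `k` and `i` remaining steps -/
noncomputable def EVN (W : Wlk V C0 N0) {Ω : Type} [MeasurableSpace Ω] (P : Measure Ω)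
    (η : ℕ → V → Ω → ℝ) (s2 κ : ℝ) (w : V → ℝ) (T k i : ℕ) (y : V) : ℝ :=
    s2 * ∑ z, W.K k y z ^ 2 * N4 W P η w T i 0 z
    + s2 * ∑ z, wt W w (T - i) z ^ 2 * G4 W P η i 0 k z y
    + 4 * s2 * ∑ z, wt W w (T - i) z * W.K k y z *
        Real.sqrt (N4 W P η w T i 0 z * G4 W P η i 0 k z y)
    + 2 * κ * s2 * ∑ z, wt W w (T - i) z * W.K k y z ^ 2 *
        Real.sqrt (N4 W P η w T i 0 z * G4 W P η i 0 0 z z)
    + κ * s2 * ∑ z, wt W w (T - i) z ^ 2 * W.K k y z *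
        (G4 W P η i 0 0 z z + G4 W P η i 0 k z y)
    + κ * s2 * ∑ z, wt W w (T - i) z ^ 2 * W.K k y z ^ 2 * G4 W P η i 0 0 z z
    + s2 ^ 2 * ∑ z, ∑ z', wt W w (T - i) z ^ 2 * W.K k y z' ^ 2 * G4 W P η i 0 0 z z'
    + 2 * s2 ^ 2 * ∑ z, ∑ z', wt W w (T - i) z * W.K k y z *
        (wt W w (T - i) z' * W.K k y z') * G4 W P η i 0 0 z z'

theorem unrollN (hT3 : S_T3) (W : Wlk V C0 N0) {Ω : Type} [MeasurableSpace Ω] (P : Measure Ω)
    [IsProbabilityMeasure P] {s2 κ : ℝ} {η : ℕ → V → Ω → ℝ} (hs : 0 ≤ s2) (hκ : 0 ≤ κ)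
    (hN : Noise P s2 κ η) (w : V → ℝ) (hw : ∀ x, 0 ≤ w x) (T : ℕ) (hT : 1 ≤ T) :
    ∀ (j a : ℕ) (y : V), j ≤ T → N4 W P η w T j a y ≤ ∑ k ∈ Finset.range j,
      EVN W P η s2 κ w T (a + (k + 1)) (j - (k + 1)) y := by
  intro j
  induction j with
  | zero =>
    intro a y _
    rw [(hT3 V C0 N0 W Ω P s2 κ η hs hκ hN w hw T 0 a y hT).2.1]
    simp
  | succ j ih =>
    intro a y hj
    have h1 := (hT3 V C0 N0 W Ω P s2 κ η hs hκ hN w hw T j a y hj).2.2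
    have h2 := ih (a + 1) y (by omega)
    rw [Finset.sum_range_succ']
    have h3 : ∑ k ∈ Finset.range j, EVN W P η s2 κ w T (a + (k + 1 + 1)) (j + 1 - (k + 1 + 1)) y =
        ∑ k ∈ Finset.range j, EVN W P η s2 κ w T (a + 1 + (k + 1)) (j - (k + 1)) y := by
      refine Finset.sum_congr rfl fun k _ => ?_
      have e1 : a + (k + 1 + 1) = a + 1 + (k + 1) := by omega
      have e3 : j + 1 - (k + 1 + 1) = j - (k + 1) := by omega
      rw [e1, e3]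
    rw [h3]
    have h4 : EVN W P η s2 κ w T (a + (0 + 1)) (j + 1 - (0 + 1)) y =
        EVN W P η s2 κ w T (a + 1) j y := by
      simp only [zero_add, Nat.add_sub_cancel]
    rw [h4]
    have h5 : N4 W P η w T (j + 1) a y ≤ N4 W P η w T j (a + 1) y +
        EVN W P η s2 κ w T (a + 1) j y := by
      unfold EVN
      linarith
    linarith

/-- bound of the terms -/
theorem EVN_le (W : Wlk V C0 N0) {Ω : Type} [MeasurableSpace Ω] (P : Measure Ω)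
    {s2 κ : ℝ} {η : ℕ → V → Ω → ℝ} (hs : 0 ≤ s2) (hs1 : s2 ≤ 1) (hκ : 0 ≤ κ) {F E S : ℝ}
    (hF : 0 ≤ F) (hE : 0 ≤ E) (hS : 0 ≤ S) (hS2 : S ^ 2 = F * (2 * E)) {w : V → ℝ}
    {h q : ℕ → ℝ} (hq0 : ∀ n, 0 ≤ q n) (hq : ∀ n, h n = q n ^ 2) (hanti : Antitone h)
    {T k l i m : ℕ} (hi : T - i = l) (hk : 1 ≤ k) (hkl : k ≤ l)
    (hl : l ≤ N0) (hu0 : ∀ z, 0 ≤ wt W w l z) (hul : ∀ z, wt W w l z ≤ C0 / l)
    (hu2 : ∑ z, wt W w l z ^ 2 ≤ C0 / l)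
    (hN : ∀ z, N4 W P η w T i 0 z ≤ F * h m)
    (hG : ∀ a y v, 0 ≤ G4 W P η i 0 a y v)
    (hGk : ∀ y v, G4 W P η i 0 k y v ≤ 2 * E * h k)
    (hG0 : ∀ y v, G4 W P η i 0 0 y v ≤ 2 * E * h 0) (y : V) :
    EVN W P η s2 κ w T k i y ≤ s2 * (rr k * (F * h m)) + 2 * C0 * s2 * E * (h k / l)
      + 4 * C0 * s2 * S * (q m * (q k / l))
      + 2 * κ * C0 ^ 2 * s2 * S * (q m * (q 0 * (1 / ((k : ℝ) * l))))
      + 6 * (κ + 1) * C0 ^ 2 * s2 * E * (h 0 * (1 / ((k : ℝ) * l))) := by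
  have hh0 : ∀ n, 0 ≤ h n := fun n => by rw [hq n]; exact sq_nonneg _
  have hl1 : 1 ≤ l := hk.trans hkl
  have hkN : k ≤ N0 := hkl.trans hl
  have hC0 : 0 ≤ C0 := le_trans zero_le_one W.one_le
  have hkp : (0 : ℝ) < k := by exact_mod_cast hk
  have hlp : (0 : ℝ) < l := by exact_mod_cast hl1
  have hkl' : (k : ℝ) ≤ l := by exact_mod_cast hkl
  have h0k : h k ≤ h 0 := hanti (Nat.zero_le k)
  have hA0 : 0 ≤ 2 * E * h 0 := mul_nonneg (by positivity) (hh0 0)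
  have hAk : 0 ≤ 2 * E * h k := mul_nonneg (by positivity) (hh0 k)
  have hAk0 : 2 * E * h k ≤ 2 * E * h 0 := mul_le_mul_of_nonneg_left h0k (by positivity)
  have hFm : 0 ≤ F * h m := mul_nonneg hF (hh0 m)
  have hck : 0 ≤ C0 / (k : ℝ) := div_nonneg hC0 hkp.le
  have hcl : 0 ≤ C0 / (l : ℝ) := div_nonneg hC0 hlp.le
  obtain ⟨u, hu⟩ : ∃ u : V → ℝ, u = wt W w l := ⟨_, rfl⟩
  have hu0' : ∀ z, 0 ≤ u z := by rw [hu]; exact hu0
  have hul' : ∀ z, u z ≤ C0 / l := by rw [hu]; exact hul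
  have hu2' : ∑ z, u z ^ 2 ≤ C0 / l := by rw [hu]; exact hu2
  have hKu : ∀ z, 0 ≤ u z * W.K k y z := fun z => mul_nonneg (hu0' z) (W.K_nonneg _ _ _)
  -- sums of the kernels
  have k1 : ∑ z, u z * W.K k y z ≤ C0 / l := by
    calc ∑ z, u z * W.K k y z ≤ ∑ z, C0 / l * W.K k y z :=
          Finset.sum_le_sum fun z _ => mul_le_mul_of_nonneg_right (hul' z) (W.K_nonneg _ _ _)
      _ = C0 / l := by rw [← Finset.mul_sum, W.K_sum, mul_one]
  have k2 : ∑ z, u z * W.K k y z ^ 2 ≤ C0 / k * (C0 / l) := by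
    calc ∑ z, u z * W.K k y z ^ 2 ≤ ∑ z, C0 / l * W.K k y z ^ 2 :=
          Finset.sum_le_sum fun z _ => mul_le_mul_of_nonneg_right (hul' z) (sq_nonneg _)
      _ = C0 / l * ∑ z, W.K k y z ^ 2 := by rw [Finset.mul_sum]
      _ ≤ C0 / l * (C0 / k) := mul_le_mul_of_nonneg_left (sum_sq_le W hk hkN y) hcl
      _ = C0 / k * (C0 / l) := mul_comm _ _
  have k3 : ∑ z, u z ^ 2 * W.K k y z ≤ C0 / k * (C0 / l) := by
    calc ∑ z, u z ^ 2 * W.K k y z ≤ ∑ z, u z ^ 2 * (C0 / k) :=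
          Finset.sum_le_sum fun z _ => mul_le_mul_of_nonneg_left (W.K_sup k y z hk hkN) (sq_nonneg _)
      _ = (∑ z, u z ^ 2) * (C0 / k) := by rw [Finset.sum_mul]
      _ ≤ C0 / l * (C0 / k) := mul_le_mul_of_nonneg_right hu2' hck
      _ = C0 / k * (C0 / l) := mul_comm _ _
  have k4 : ∑ z, u z ^ 2 * W.K k y z ^ 2 ≤ C0 / k * (C0 / l) := by
    refine le_trans (Finset.sum_le_sum fun z _ => ?_) k3
    refine mul_le_mul_of_nonneg_left ?_ (sq_nonneg _)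
    have h1 := K_le_one W k y z
    have h0 := W.K_nonneg k y z
    nlinarith
  -- square roots
  have r1 : ∀ z, Real.sqrt (N4 W P η w T i 0 z * G4 W P η i 0 k z y) ≤ S * (q m * q k) := by
    intro z
    refine Real.sqrt_le_iff.2 ⟨mul_nonneg hS (mul_nonneg (hq0 m) (hq0 k)), ?_⟩
    calc N4 W P η w T i 0 z * G4 W P η i 0 k z y ≤ F * h m * (2 * E * h k) :=
          mul_le_mul (hN z) (hGk z y) (hG _ _ _) hFm
      _ = (S * (q m * q k)) ^ 2 := by rw [mul_pow, hS2, hq m, hq k]; ring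
  have r2 : ∀ z, Real.sqrt (N4 W P η w T i 0 z * G4 W P η i 0 0 z z) ≤ S * (q m * q 0) := by
    intro z
    refine Real.sqrt_le_iff.2 ⟨mul_nonneg hS (mul_nonneg (hq0 m) (hq0 0)), ?_⟩
    calc N4 W P η w T i 0 z * G4 W P η i 0 0 z z ≤ F * h m * (2 * E * h 0) :=
          mul_le_mul (hN z) (hG0 z z) (hG _ _ _) hFm
      _ = (S * (q m * q 0)) ^ 2 := by rw [mul_pow, hS2, hq m, hq 0]; ring
  have hSk : 0 ≤ S * (q m * q k) := mul_nonneg hS (mul_nonneg (hq0 m) (hq0 k))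
  have hS0 : 0 ≤ S * (q m * q 0) := mul_nonneg hS (mul_nonneg (hq0 m) (hq0 0))
  -- the eight terms
  have t1 : ∑ z, W.K k y z ^ 2 * N4 W P η w T i 0 z ≤ rr k * (F * h m) :=
    sum_mul_le (fun z => sq_nonneg _) hN hFm (sum_sq W hkN y).le
  have t2 : ∑ z, u z ^ 2 * G4 W P η i 0 k z y ≤ C0 / l * (2 * E * h k) :=
    sum_mul_le (fun z => sq_nonneg _) (fun z => hGk z y) hAk hu2'
  have t3 : ∑ z, u z * W.K k y z * Real.sqrt (N4 W P η w T i 0 z * G4 W P η i 0 k z y) ≤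
      C0 / l * (S * (q m * q k)) := sum_mul_le hKu r1 hSk k1
  have t4 : ∑ z, u z * W.K k y z ^ 2 * Real.sqrt (N4 W P η w T i 0 z * G4 W P η i 0 0 z z) ≤
      C0 / k * (C0 / l) * (S * (q m * q 0)) :=
    sum_mul_le (fun z => mul_nonneg (hu0' z) (sq_nonneg _)) r2 hS0 k2
  have t5 : ∑ z, u z ^ 2 * W.K k y z * (G4 W P η i 0 0 z z + G4 W P η i 0 k z y) ≤
      C0 / k * (C0 / l) * (2 * E * h 0 + 2 * E * h 0) :=
    sum_mul_le (fun z => mul_nonneg (sq_nonneg _) (W.K_nonneg _ _ _))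
      (fun z => add_le_add (hG0 z z) ((hGk z y).trans hAk0)) (by linarith) k3
  have t6 : ∑ z, u z ^ 2 * W.K k y z ^ 2 * G4 W P η i 0 0 z z ≤
      C0 / k * (C0 / l) * (2 * E * h 0) :=
    sum_mul_le (fun z => mul_nonneg (sq_nonneg _) (sq_nonneg _)) (fun z => hG0 z z) hA0 k4
  have t7 : ∑ z, ∑ z', u z ^ 2 * W.K k y z' ^ 2 * G4 W P η i 0 0 z z' ≤
      C0 / l * (C0 / k) * (2 * E * h 0) :=
    sum_mul_le2 (fun z => sq_nonneg _) (fun z => sq_nonneg _) hG0 hA0 hck hu2'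
      (sum_sq_le W hk hkN y)
  have t8 : ∑ z, ∑ z', u z * W.K k y z * (u z' * W.K k y z') *
      G4 W P η i 0 0 z z' ≤ C0 / l * (C0 / l) * (2 * E * h 0) :=
    sum_mul_le2 hKu hKu hG0 hA0 hcl k1 k1
  have hll : C0 / l * (C0 / l) ≤ C0 / k * (C0 / (l : ℝ)) :=
    mul_le_mul_of_nonneg_right (div_le_div_of_nonneg_left hC0 hkp hkl') hcl
  obtain ⟨D, hD⟩ : ∃ D : ℝ, D = C0 / k * (C0 / l) * (2 * E * h 0) := ⟨_, rfl⟩
  have hD0 : 0 ≤ D := by rw [hD]; positivity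
  have hD' : D = 2 * C0 ^ 2 * E * (h 0 * (1 / ((k : ℝ) * l))) := by
    rw [hD]
    field_simp
  have t5' : ∑ z, u z ^ 2 * W.K k y z * (G4 W P η i 0 0 z z + G4 W P η i 0 k z y) ≤ 2 * D := by
    refine t5.trans (le_of_eq ?_)
    rw [hD]; ring
  have t6' : ∑ z, u z ^ 2 * W.K k y z ^ 2 * G4 W P η i 0 0 z z ≤ D := by
    refine t6.trans (le_of_eq ?_)
    rw [hD]
  have t7' : ∑ z, ∑ z', u z ^ 2 * W.K k y z' ^ 2 * G4 W P η i 0 0 z z' ≤ D := by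
    refine t7.trans (le_of_eq ?_)
    rw [hD]; ring
  have t8' : ∑ z, ∑ z', u z * W.K k y z * (u z' * W.K k y z') *
      G4 W P η i 0 0 z z' ≤ D := by
    refine (t8.trans (mul_le_mul_of_nonneg_right hll hA0)).trans (le_of_eq ?_)
    rw [hD]
  have hs2 : s2 ^ 2 ≤ s2 := by nlinarith
  have hs20 : 0 ≤ s2 ^ 2 := sq_nonneg _
  have hκs : 0 ≤ κ * s2 := mul_nonneg hκ hs
  have u1 := mul_le_mul_of_nonneg_left t1 hs
  have u2 := mul_le_mul_of_nonneg_left t2 hs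
  have u3 := mul_le_mul_of_nonneg_left t3 (mul_nonneg zero_le_four hs)
  have u4 := mul_le_mul_of_nonneg_left t4 (mul_nonneg (mul_nonneg zero_le_two hκ) hs)
  have u5 := mul_le_mul_of_nonneg_left t5' hκs
  have u6 := mul_le_mul_of_nonneg_left t6' hκs
  have u7 : s2 ^ 2 * ∑ z, ∑ z', u z ^ 2 * W.K k y z' ^ 2 * G4 W P η i 0 0 z z' ≤
      s2 * D :=
    (mul_le_mul_of_nonneg_left t7' hs20).trans (mul_le_mul_of_nonneg_right hs2 hD0)
  have u8 : 2 * s2 ^ 2 * ∑ z, ∑ z', u z * W.K k y z * (u z' * W.K k y z') *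
      G4 W P η i 0 0 z z' ≤ 2 * s2 * D :=
    (mul_le_mul_of_nonneg_left t8' (by positivity)).trans
      (mul_le_mul_of_nonneg_right (by linarith) hD0)
  have key : EVN W P η s2 κ w T k i y ≤ s2 * (rr k * (F * h m)) + s2 * (C0 / l * (2 * E * h k)) +
      4 * s2 * (C0 / l * (S * (q m * q k))) + 2 * κ * s2 * (C0 / k * (C0 / l) * (S * (q m * q 0))) +
      κ * s2 * (2 * D) + κ * s2 * D + s2 * D + 2 * s2 * D := by
    unfold EVN
    rw [hi, ← hu]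
    linarith
  refine key.trans ?_
  have h5 : s2 * (C0 / l * (2 * E * h k)) = 2 * C0 * s2 * E * (h k / l) := by
    field_simp
  have h5' : 4 * s2 * (C0 / l * (S * (q m * q k))) = 4 * C0 * s2 * S * (q m * (q k / l)) := by
    field_simp
  have h5'' : 2 * κ * s2 * (C0 / k * (C0 / l) * (S * (q m * q 0))) =
      2 * κ * C0 ^ 2 * s2 * S * (q m * (q 0 * (1 / ((k : ℝ) * l)))) := by
    field_simp
  have h6 : 3 * (κ + 1) * s2 * D = 6 * (κ + 1) * C0 ^ 2 * s2 * E *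
      (h 0 * (1 / ((k : ℝ) * l))) := by
    rw [hD']; ring
  rw [h5, h5', h5'', ← h6]
  linarith

theorem hh_sq (t a : ℕ) : hh (1 / 4) t a = hh (1 / 8) t a ^ 2 := by
  unfold hh
  have hx : (0 : ℝ) < ((t : ℝ) + 1) / ((a : ℝ) + 1) := by positivity
  obtain ⟨x, hxd⟩ : ∃ x : ℝ, x = ((t : ℝ) + 1) / ((a : ℝ) + 1) := ⟨_, rfl⟩
  rw [← hxd] at hx ⊢
  have h1 : (x ^ (1 / 8 : ℝ)) ^ 2 = x ^ (1 / 4 : ℝ) := by
    rw [← Real.rpow_natCast, ← Real.rpow_mul hx.le]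
    norm_num
  have h2 : 0 ≤ x ^ (1 / 8 : ℝ) := Real.rpow_nonneg hx.le _
  rw [← h1]
  rcases le_total 1 (x ^ (1 / 8 : ℝ)) with h | h
  · rw [max_eq_right h, max_eq_right (by nlinarith)]
  · rw [max_eq_left h, max_eq_left (by nlinarith)]
    norm_num

theorem t_PH : S_PH := by
  intro hT1 hT3 hRR hHH hOV hTH C0 κ hC0 hκ
  obtain ⟨Ch, hCh, hanti, hsum, hsum0⟩ := hHH (1 / 4) (by norm_num) le_rfl
  obtain ⟨C8, hC8, hanti8, hsum8, hsum08⟩ := hHH (1 / 8) (by norm_num) (by norm_num)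
  obtain ⟨CT, hCT, hTH'⟩ := hTH hT1 hRR hHH C0 κ hC0 hκ
  have hCh0 : 0 ≤ Ch := zero_le_one.trans hCh
  have hC80 : 0 ≤ C8 := zero_le_one.trans hC8
  have hC00 : 0 ≤ C0 := zero_le_one.trans hC0
  obtain ⟨C1, hC1⟩ : ∃ C1 : ℝ, C1 = (2 * C0 + 6 * (κ + 1) * C0 ^ 2) * Ch := ⟨_, rfl⟩
  obtain ⟨C2, hC2⟩ : ∃ C2 : ℝ, C2 = 2 * (4 * C0 + 2 * κ * C0 ^ 2) * C8 := ⟨_, rfl⟩
  have hC10 : 0 ≤ C1 := by rw [hC1]; positivity
  have hC20 : 0 ≤ C2 := by rw [hC2]; positivity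
  refine ⟨C1 + C2 + CT, by linarith, ?_⟩
  obtain ⟨C, hCd⟩ : ∃ C : ℝ, C = C1 + C2 + CT := ⟨_, rfl⟩
  rw [← hCd]
  have hC1' : 1 ≤ C := by linarith
  intro V _ _ N0 W Ω _ P _ s2 E η w t T hs hN ht hT hRT hE hC hw hw1
  obtain ⟨Lg, hLg⟩ : ∃ Lg : ℝ, Lg = 1 + Real.log (1 + (T : ℝ) / t) := ⟨_, rfl⟩
  have hLg1 : 1 ≤ Lg := by
    have : 0 ≤ Real.log (1 + (T : ℝ) / t) := by
      apply Real.log_nonneg
      have : 0 ≤ (T : ℝ) / t := by positivity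
      linarith
    linarith
  have hR0 : 0 ≤ RR T := RR_nonneg hRR T
  have hden : 0 < 1 - s2 * RR T := by linarith
  have hE1 : 1 ≤ E := by
    rw [hE, le_div_iff₀ hden]
    have := mul_nonneg hs.le hR0
    linarith
  have hE0 : 0 < E := by linarith
  have hELg : 1 ≤ E * Lg := one_le_mul_of_one_le_of_one_le hE1 hLg1
  have hsEL : 0 ≤ s2 * (E * Lg) := by positivity
  have hG4 := hTH' V N0 W Ω P s2 E η t T hs hN ht hT hRT hE (by
    rw [← hLg]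
    rw [← hLg] at hC
    have h1 : CT * (s2 * (E * Lg)) ≤ C * (s2 * (E * Lg)) :=
      mul_le_mul_of_nonneg_right (by linarith) hsEL
    have h2 : CT * s2 * E * Lg = CT * (s2 * (E * Lg)) := by ring
    have h3 : C * s2 * E * Lg = C * (s2 * (E * Lg)) := by ring
    linarith)
  rw [← hLg] at hC ⊢
  have hs1 : s2 ≤ 1 := by
    have h1 : s2 * 1 ≤ s2 * (E * Lg) := mul_le_mul_of_nonneg_left hELg hs.le
    have h2 : 1 * (s2 * (E * Lg)) ≤ C * (s2 * (E * Lg)) :=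
      mul_le_mul_of_nonneg_right hC1' hsEL
    have h3 : C * (s2 * (E * Lg)) = C * s2 * E * Lg := by ring
    linarith
  have hEi : 1 / E = 1 - s2 * RR T := by rw [hE, one_div_one_div]
  obtain ⟨h, hh_def⟩ : ∃ h : ℕ → ℝ, h = hh (1 / 4) t := ⟨_, rfl⟩
  obtain ⟨q, hq_def⟩ : ∃ q : ℕ → ℝ, q = hh (1 / 8) t := ⟨_, rfl⟩
  have hh1 : ∀ n, 1 ≤ h n := fun n => by rw [hh_def]; exact hh_one_le _ _ _
  have hh0 : ∀ n, 0 ≤ h n := fun n => zero_le_one.trans (hh1 n)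
  have hq0 : ∀ n, 0 ≤ q n := fun n => zero_le_one.trans (by rw [hq_def]; exact hh_one_le _ _ _)
  have hq : ∀ n, h n = q n ^ 2 := fun n => by rw [hh_def, hq_def]; exact hh_sq t n
  have han : Antitone h := by rw [hh_def]; exact hanti t
  rw [← hh_def]
  rw [← hh_def] at hG4
  have hsumh : ∀ a : ℕ, ∑ k ∈ Finset.Icc 1 T, h k / ((a : ℝ) + k) ≤ Ch * Lg * h a := by
    intro a; rw [hh_def, hLg]; exact hsum t T a ht
  have hsum0h : ∀ a : ℕ, h 0 * ∑ k ∈ Finset.Icc 1 T, 1 / ((k : ℝ) * ((a : ℝ) + k)) ≤ Ch * h a := by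
    intro a; rw [hh_def]; exact hsum0 t T a ht
  have hsumq : ∀ a : ℕ, ∑ k ∈ Finset.Icc 1 T, q k / ((a : ℝ) + k) ≤ C8 * Lg * q a := by
    intro a; rw [hq_def, hLg]; exact hsum8 t T a ht
  have hsum0q : ∀ a : ℕ, q 0 * ∑ k ∈ Finset.Icc 1 T, 1 / ((k : ℝ) * ((a : ℝ) + k)) ≤ C8 * q a := by
    intro a; rw [hq_def]; exact hsum08 t T a ht
  obtain ⟨F, hF⟩ : ∃ F : ℝ, F = C * (s2 * E * Lg) * E := ⟨_, rfl⟩
  have hF0 : 0 ≤ F := by rw [hF]; positivity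
  obtain ⟨S, hSd⟩ : ∃ S : ℝ, S = Real.sqrt (F * (2 * E)) := ⟨_, rfl⟩
  have hS0 : 0 ≤ S := by rw [hSd]; exact Real.sqrt_nonneg _
  have hS2 : S ^ 2 = F * (2 * E) := by rw [hSd]; exact Real.sq_sqrt (by positivity)
  have hFE : F ≤ E := by
    have h1 : C * (s2 * E * Lg) ≤ 1 := by
      have : C * (s2 * E * Lg) = C * s2 * E * Lg := by ring
      linarith
    have := mul_le_mul_of_nonneg_right h1 hE0.le
    rw [hF]; linarith
  have hSE : S ≤ 2 * E := by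
    have h1 : S ^ 2 ≤ (2 * E) ^ 2 := by rw [hS2]; nlinarith
    exact le_of_sq_le_sq h1 (by positivity)
  rw [← hF]
  have hwts := hOV V C0 N0 W w hw
  have hwt0 := hwts.1
  have hwt1 := hwts.2.2.2.2.2.2.1 hw1
  intro j
  induction j using Nat.strong_induction_on with
  | _ j ih =>
  intro y hjT
  rcases Nat.eq_zero_or_pos T with hT0 | hTpos
  · have hj0 : j = 0 := by omega
    subst hj0
    have h1 : N4 W P η w T 0 0 y = 0 := by
      unfold N4 XX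
      simp [Zr]
    rw [h1]
    exact mul_nonneg hF0 (hh0 _)
  have h1 := unrollN hT3 W P hs.le hκ hN w hw T hTpos j 0 y hjT
  obtain ⟨m, hm⟩ : ∃ m : ℕ, m = T - j := ⟨_, rfl⟩
  rw [← hm]
  have h2 : ∀ k ∈ Finset.range j, EVN W P η s2 κ w T (0 + (k + 1)) (j - (k + 1)) y ≤
      s2 * (rr (k + 1) * (F * h m)) + 2 * C0 * s2 * E * (h (k + 1) / ((m : ℝ) + ((k + 1 : ℕ) : ℝ)))
      + 4 * C0 * s2 * S * (q m * (q (k + 1) / ((m : ℝ) + ((k + 1 : ℕ) : ℝ))))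
      + 2 * κ * C0 ^ 2 * s2 * S * (q m * (q 0 * (1 / (((k + 1 : ℕ) : ℝ) *
        ((m : ℝ) + ((k + 1 : ℕ) : ℝ))))))
      + 6 * (κ + 1) * C0 ^ 2 * s2 * E * (h 0 * (1 / (((k + 1 : ℕ) : ℝ) *
        ((m : ℝ) + ((k + 1 : ℕ) : ℝ))))) := by
    intro k hk
    have hkj : k < j := Finset.mem_range.1 hk
    rw [zero_add, ← Nat.cast_add m (k + 1)]
    have hlt : j - (k + 1) < j := by omega
    refine EVN_le W P (η := η) hs.le hs1 hκ hF0 hE0.le hS0 hS2 hq0 hq han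
      (k := k + 1) (l := m + (k + 1)) (i := j - (k + 1)) (m := m) (by omega) (by omega) (by omega)
      (by omega) (fun z => hwt0 _ z) (fun z => hwt1.2.1 _ z (by omega) (by omega))
      (hwt1.2.2 _ (by omega) (by omega)) ?_ ?_ ?_ ?_ y
    · intro z
      refine (ih _ hlt z (by omega)).trans ?_
      exact mul_le_mul_of_nonneg_left (han (by omega)) hF0
    · intro a y' v'
      exact (hT1 V C0 N0 W Ω P s2 κ η hs.le hκ hN (j - (k + 1)) 0 a y' v').1 y' v'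
    · intro y' v'
      exact hG4 _ _ y' v' (by omega)
    · intro y' v'
      exact hG4 _ _ y' v' (by omega)
  have h3 := Finset.sum_le_sum h2
  rw [Finset.sum_add_distrib, Finset.sum_add_distrib, Finset.sum_add_distrib,
    Finset.sum_add_distrib, ← Finset.mul_sum, ← Finset.mul_sum, ← Finset.mul_sum,
    ← Finset.mul_sum, ← Finset.mul_sum, ← Finset.sum_mul, ← Finset.mul_sum, ← Finset.mul_sum,
    ← Finset.mul_sum, ← Finset.mul_sum] at h3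
  have s1 : ∑ k ∈ Finset.range j, rr (k + 1) ≤ RR T :=
    sum_shift_le (f := rr) (fun k _ => (hRR.1 k).le) hjT
  have s2' : ∑ k ∈ Finset.range j, h (k + 1) / ((m : ℝ) + ((k + 1 : ℕ) : ℝ)) ≤
      Ch * Lg * h m :=
    (sum_shift_le (f := fun k => h k / ((m : ℝ) + (k : ℝ)))
      (fun k _ => div_nonneg (hh0 k) (by positivity)) hjT).trans (hsumh m)
  have s3 : h 0 * ∑ k ∈ Finset.range j, 1 / (((k + 1 : ℕ) : ℝ) * ((m : ℝ) + ((k + 1 : ℕ) : ℝ))) ≤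
      Ch * h m :=
    (mul_le_mul_of_nonneg_left (sum_shift_le (f := fun k => 1 / ((k : ℝ) * ((m : ℝ) + (k : ℝ))))
      (fun k _ => by positivity) hjT) (hh0 0)).trans (hsum0h m)
  have s3' : Ch * h m ≤ Ch * Lg * h m := by
    have : Ch * 1 ≤ Ch * Lg := mul_le_mul_of_nonneg_left hLg1 hCh0
    have := mul_le_mul_of_nonneg_right this (hh0 m)
    linarith
  have s4 : ∑ k ∈ Finset.range j, q (k + 1) / ((m : ℝ) + ((k + 1 : ℕ) : ℝ)) ≤
      C8 * Lg * q m :=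
    (sum_shift_le (f := fun k => q k / ((m : ℝ) + (k : ℝ)))
      (fun k _ => div_nonneg (hq0 k) (by positivity)) hjT).trans (hsumq m)
  have s5 : q 0 * ∑ k ∈ Finset.range j, 1 / (((k + 1 : ℕ) : ℝ) * ((m : ℝ) + ((k + 1 : ℕ) : ℝ))) ≤
      C8 * q m :=
    (mul_le_mul_of_nonneg_left (sum_shift_le (f := fun k => 1 / ((k : ℝ) * ((m : ℝ) + (k : ℝ))))
      (fun k _ => by positivity) hjT) (hq0 0)).trans (hsum0q m)
  have s5' : C8 * q m ≤ C8 * Lg * q m := by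
    have : C8 * 1 ≤ C8 * Lg := mul_le_mul_of_nonneg_left hLg1 hC80
    have := mul_le_mul_of_nonneg_right this (hq0 m)
    linarith
  have e1 : s2 * ((∑ k ∈ Finset.range j, rr (k + 1)) * (F * h m)) ≤ s2 * (RR T * (F * h m)) :=
    mul_le_mul_of_nonneg_left (mul_le_mul_of_nonneg_right s1 (mul_nonneg hF0 (hh0 m))) hs.le
  have e2 : 2 * C0 * s2 * E * ∑ k ∈ Finset.range j, h (k + 1) / ((m : ℝ) + ((k + 1 : ℕ) : ℝ)) ≤
      2 * C0 * s2 * E * (Ch * Lg * h m) := mul_le_mul_of_nonneg_left s2' (by positivity)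
  have e3 : 4 * C0 * s2 * S * (q m * ∑ k ∈ Finset.range j,
      q (k + 1) / ((m : ℝ) + ((k + 1 : ℕ) : ℝ))) ≤ 4 * C0 * s2 * (2 * E) * (C8 * Lg * h m) := by
    have a1 : q m * ∑ k ∈ Finset.range j, q (k + 1) / ((m : ℝ) + ((k + 1 : ℕ) : ℝ)) ≤
        C8 * Lg * h m := by
      refine (mul_le_mul_of_nonneg_left s4 (hq0 m)).trans (le_of_eq ?_)
      rw [hq m]; ring
    refine mul_le_mul (mul_le_mul_of_nonneg_left hSE (by positivity)) a1 ?_ (by positivity)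
    exact mul_nonneg (hq0 m) (Finset.sum_nonneg fun k _ => div_nonneg (hq0 _) (by positivity))
  have e4 : 2 * κ * C0 ^ 2 * s2 * S * (q m * (q 0 * ∑ k ∈ Finset.range j,
      1 / (((k + 1 : ℕ) : ℝ) * ((m : ℝ) + ((k + 1 : ℕ) : ℝ))))) ≤
      2 * κ * C0 ^ 2 * s2 * (2 * E) * (C8 * Lg * h m) := by
    have a1 : q m * (q 0 * ∑ k ∈ Finset.range j,
        1 / (((k + 1 : ℕ) : ℝ) * ((m : ℝ) + ((k + 1 : ℕ) : ℝ)))) ≤ C8 * Lg * h m := by
      refine (mul_le_mul_of_nonneg_left (s5.trans s5') (hq0 m)).trans (le_of_eq ?_)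
      rw [hq m]; ring
    refine mul_le_mul (mul_le_mul_of_nonneg_left hSE (by positivity)) a1 ?_ (by positivity)
    exact mul_nonneg (hq0 m) (mul_nonneg (hq0 0) (Finset.sum_nonneg fun k _ => by positivity))
  have e5 : 6 * (κ + 1) * C0 ^ 2 * s2 * E * (h 0 * ∑ k ∈ Finset.range j,
      1 / (((k + 1 : ℕ) : ℝ) * ((m : ℝ) + ((k + 1 : ℕ) : ℝ)))) ≤
      6 * (κ + 1) * C0 ^ 2 * s2 * E * (Ch * Lg * h m) :=
    mul_le_mul_of_nonneg_left (s3.trans s3') (by positivity)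
  have e6 : 2 * C0 * s2 * E * (Ch * Lg * h m) + 4 * C0 * s2 * (2 * E) * (C8 * Lg * h m) +
      2 * κ * C0 ^ 2 * s2 * (2 * E) * (C8 * Lg * h m) +
      6 * (κ + 1) * C0 ^ 2 * s2 * E * (Ch * Lg * h m) = (C1 + C2) * (s2 * (E * Lg)) * h m := by
    rw [hC1, hC2]; ring
  have e7 : (C1 + C2) * (s2 * (E * Lg)) * h m ≤ C * (s2 * (E * Lg)) * h m :=
    mul_le_mul_of_nonneg_right (mul_le_mul_of_nonneg_right (by linarith) hsEL) (hh0 m)
  have e8 : s2 * (RR T * (F * h m)) = F * h m - C * (s2 * (E * Lg)) * h m := by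
    have a1 : s2 * RR T = 1 - 1 / E := by rw [hEi]; ring
    have a2 : E * (1 / E) = 1 := mul_one_div_cancel hE0.ne'
    calc s2 * (RR T * (F * h m)) = (s2 * RR T) * (F * h m) := by ring
      _ = F * h m - (1 / E) * F * h m := by rw [a1]; ring
      _ = F * h m - C * (s2 * (E * Lg)) * (E * (1 / E)) * h m := by rw [hF]; ring
      _ = _ := by rw [a2, mul_one]
  linarith

end Pool.Agent.H344.QC
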